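import Pool.Agent.Helper55.SM.Defs

set_option autoImplicit false

open Set

namespace Pool.Agent.Helper55.SM

/-! Basic lemmas on `res`. -/

theorem res_length {α : Type*} (x : ℕ → α) (k : ℕ) : (res x k).length = k := by
  induction k with
  | zero => rfl
  | succ k ih => simp [res, ih]

theorem res_succ {α : Type*} (x : ℕ → α) (k : ℕ) : res x (k + 1) = x k :: res x k := rfl

theorem res_zero {α : Type*} (x : ℕ → α) : res x 0 = [] := rfl

theorem res_eq_iff {α : Type*} (x y : ℕ → α) (k : ℕ) : res x k = res y k ↔ ∀ i, i < k → x i = y i := by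
  induction k with
  | zero => simp [res]
  | succ k ih =>
    rw [res_succ, res_succ, List.cons.injEq, ih]
    constructor
    · rintro ⟨h, h'⟩ i hi
      rcases Nat.lt_succ_iff_lt_or_eq.mp hi with h1 | h1
      · exact h' i h1
      · exact h1 ▸ h
    · intro h
      exact ⟨h k (Nat.lt_succ_self k), fun i hi => h i (hi.trans (Nat.lt_succ_self k))⟩

/-- `res x k` is a suffix of `res x i` for `k ≤ i`. -/
theorem res_append {α : Type*} (x : ℕ → α) (k n : ℕ) :
    res x (k + n) = res (fun i => x (k + i)) n ++ res x k := by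
  induction n with
  | zero => simp [res]
  | succ n ih => rw [← Nat.add_assoc, res_succ, ih, res_succ]; rfl

theorem map_res {α β : Type*} (f : α → β) (x : ℕ → α) (k : ℕ) :
    (res x k).map f = res (fun i => f (x i)) k := by
  induction k with
  | zero => rfl
  | succ k ih => rw [res_succ, res_succ, List.map_cons, ih]

theorem mem_res {α : Type*} (x : ℕ → α) (k : ℕ) (a : α) : a ∈ res x k ↔ ∃ i, i < k ∧ x i = a := by
  induction k with
  | zero => simp [res]
  | succ k ih =>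
    rw [res_succ, List.mem_cons, ih]
    constructor
    · rintro (h | ⟨i, h, h'⟩)
      · exact ⟨k, Nat.lt_succ_self k, h.symm⟩
      · exact ⟨i, h.trans (Nat.lt_succ_self k), h'⟩
    · rintro ⟨i, h, h'⟩
      rcases Nat.lt_succ_iff_lt_or_eq.mp h with h1 | h1
      · exact Or.inr ⟨i, h1, h'⟩
      · exact Or.inl (by rw [← h', h1])

theorem pack_eq (x : ℕ → Dat) :
    pack (fun i => (x i).1.1) (fun i => (x i).1.2) (fun i => (x i).2.1) (fun i => (x i).2.2) = x := rfl

theorem adm_mkTail (x : ℕ → Dat) (b : Bool) (m : ℕ) (s : List Dat) :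
    Adm (mkTail x b m) s ↔ LegB x ∧ res x s.length = s ∧ s.length < m ∧
      (∀ n : ℕ, ∃ i : ℕ, n ≤ i ∧ (x i).2.1 = b ∧ 0 < (x i).1.2) := Iff.rfl

theorem mem_R_nat (B : Bas) (n : ℕ) : Pt.nat n ∈ R B ↔ n ∈ Npart B := Iff.rfl

theorem mem_R_lim (B : Bas) (x : ℕ → Dat) (b : Bool) (h : Val x b) : Pt.lim x b h ∈ R B ↔ Occ B (x, b) := Iff.rfl

theorem mem_F_nat (s : List Dat) (n : ℕ) : Pt.nat n ∈ F s ↔ n ∈ Dn s := Iff.rfl

theorem mem_F_lim (s : List Dat) (x : ℕ → Dat) (b : Bool) (h : Val x b) :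
    Pt.lim x b h ∈ F s ↔ res x s.length = s := Iff.rfl

theorem isOpen_iff (W : Set Pt) : IsOpen W ↔
    ∀ (x : ℕ → Dat) (b : Bool) (h : Val x b), Pt.lim x b h ∈ W → ∃ m : ℕ, R (mkTail x b m) ⊆ W := Iff.rfl

theorem mem_R_mkTail (x : ℕ → Dat) (b : Bool) (m : ℕ) (p : Pt) :
    p ∈ R (mkTail x b m) ↔ (∃ h : Val x b, p = Pt.lim x b h) ∨
      ∃ i k : ℕ, m ≤ i ∧ (x i).2.1 = b ∧ k < (x i).1.2 ∧ p ∈ R ((x i).1.1 k) := by
  cases p with
  | nat n =>
    constructor
    · rintro ⟨i, k, h⟩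
      exact Or.inr ⟨i, k, h⟩
    · rintro (⟨h, h'⟩ | ⟨i, k, h⟩)
      · cases h'
      · exact ⟨i, k, h⟩
  | lim x' b' hv =>
    constructor
    · rintro (h | ⟨i, k, h⟩)
      · left
        have h1 : (x', b') = (x, b) := h
        obtain ⟨h2, h3⟩ := Prod.mk.inj h1
        subst h2; subst h3
        exact ⟨hv, rfl⟩
      · exact Or.inr ⟨i, k, h⟩
    · rintro (⟨h, h'⟩ | ⟨i, k, h⟩)
      · left
        injection h' with h1 h2
        subst h1; subst h2; rfl
      · exact Or.inr ⟨i, k, h⟩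

theorem lim_mem_mkTail (x : ℕ → Dat) (b : Bool) (h : Val x b) (m : ℕ) : Pt.lim x b h ∈ R (mkTail x b m) :=
  Or.inl rfl

theorem R_mkTail_anti (x : ℕ → Dat) (b : Bool) {m m' : ℕ} (h : m ≤ m') :
    R (mkTail x b m') ⊆ R (mkTail x b m) := by
  intro p hp
  rw [mem_R_mkTail] at hp ⊢
  rcases hp with h1 | ⟨i, k, h1, h2⟩
  · exact Or.inl h1
  · exact Or.inr ⟨i, k, h.trans h1, h2⟩

end Pool.Agent.Helper55.SM
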