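import Mathlib

/-!
Definitions for MP_151819_an (S03894): a scattered compact space K such that C(K) has a strictly convex
renorming but no Gateaux smooth renorming.

Part I: the space. Part II: the abstract system used by the analysis.
-/

set_option autoImplicit false

open Set

namespace Pool.Agent.Helper55.SM

/-! ### Part I: the codes and the space -/

/-- Codes of basic sets.  `pt n` codes the isolated point `n`; `tail P len lab j b m` codes the
neighbourhood, from level `m` on, of the limit point with label `b` of the branch whose `i`-th datum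
consists of the finite list `P i 0, ..., P i (len i - 1)` of codes, the label `lab i` and the number `j i`. -/
inductive Bas : Type
  | pt : ℕ → Bas
  | tail : (ℕ → ℕ → Bas) → (ℕ → ℕ) → (ℕ → Bool) → (ℕ → ℕ) → Bool → ℕ → Bas

/-- A finite list of codes: the codes `p.1 k` for `k < p.2`. -/
abbrev Cod : Type := (ℕ → Bas) × ℕ

/-- A datum: a finite list of codes, a label, and a number. -/
abbrev Dat : Type := Cod × Bool × ℕ

/-- The branch described by the arguments of `Bas.tail`. -/
def pack (P : ℕ → ℕ → Bas) (len : ℕ → ℕ) (lab : ℕ → Bool) (j : ℕ → ℕ) : ℕ → Dat :=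
  fun i => ((P i, len i), lab i, j i)

/-- The code of the neighbourhood `m` of the limit point of the branch `x` with label `b`. -/
def mkTail (x : ℕ → Dat) (b : Bool) (m : ℕ) : Bas :=
  Bas.tail (fun i => (x i).1.1) (fun i => (x i).1.2) (fun i => (x i).2.1) (fun i => (x i).2.2) b m

/-- The restriction of a branch: `res x k = [x (k-1), ..., x 0]` (last entry first). -/
def res {α : Type*} (x : ℕ → α) : ℕ → List α
  | 0 => []
  | k + 1 => x k :: res x k

/-- An injective code of `Bas` by sequences of natural numbers. -/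
def enc : Bas → ℕ → ℕ
  | .pt n => fun k => if k = 0 then 0 else n
  | .tail P len lab j b m => fun k =>
      if k.unpair.1 = 0 then 1
      else if k.unpair.1 = 1 then len k.unpair.2
      else if k.unpair.1 = 2 then (if lab k.unpair.2 then 1 else 0)
      else if k.unpair.1 = 3 then j k.unpair.2
      else if k.unpair.1 = 4 then (if b then 1 else 0)
      else if k.unpair.1 = 5 then m
      else enc (P k.unpair.2.unpair.1 k.unpair.2.unpair.2.unpair.1) k.unpair.2.unpair.2.unpair.2

/-- An injective code of `Dat` by sequences of natural numbers. -/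
def encDat (a : Dat) : ℕ → ℕ := fun k =>
  if k.unpair.1 = 0 then a.1.2
  else if k.unpair.1 = 1 then (if a.2.1 then 1 else 0)
  else if k.unpair.1 = 2 then a.2.2
  else enc (a.1.1 k.unpair.2.unpair.1) k.unpair.2.unpair.2

/-- An injective code of `Dat` by sequences of booleans (the graph of `encDat`). -/
def code (a : Dat) : ℕ → Bool := fun k => decide (encDat a k.unpair.1 = k.unpair.2)

/-- The natural number coding the restriction of `κ` to `n`. -/
def bnum (κ : ℕ → Bool) : ℕ → ℕ
  | 0 => 1
  | n + 1 => 2 * bnum κ n + (if κ n then 1 else 0)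

/-- The almost disjoint family inside an infinite set `D` of natural numbers. -/
def eD (D : Set ℕ) (j : ℕ) (κ : ℕ → Bool) : Set ℕ :=
  {n | n ∈ D ∧ ∃ i : ℕ, n = Nat.nth (· ∈ D) (Nat.pair j (bnum κ i))}

/-- The natural numbers in the basic set with a given code. -/
def Npart : Bas → Set ℕ
  | .pt n => {n}
  | .tail P len lab _ b m => {n | ∃ i k : ℕ, m ≤ i ∧ lab i = b ∧ k < len i ∧ n ∈ Npart (P i k)}

/-- `Occ B (x, b)`: the limit point `(x, b)` belongs to the basic set with code `B`. -/
def Occ : Bas → (ℕ → Dat) × Bool → Prop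
  | .pt _ => fun _ => False
  | .tail P len lab j b m => fun q =>
      q = (pack P len lab j, b) ∨ ∃ i k : ℕ, m ≤ i ∧ lab i = b ∧ k < len i ∧ Occ (P i k) q

/-- The natural numbers in the region of the node `s`. -/
def Dn : List Dat → Set ℕ
  | [] => Set.univ
  | a :: s => eD (Dn s) a.2.2 (code a) \ {n | ∃ k : ℕ, k < a.1.2 ∧ n ∈ Npart (a.1.1 k)}

/-- `Adm B s`: the basic set with code `B` is admissible at the node `s`. -/
def Adm : Bas → List Dat → Prop
  | .pt n => fun s => n ∈ Dn s
  | .tail P len lab j b m => fun s =>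
      (∀ i k : ℕ, k < len i → Adm (P i k) (res (pack P len lab j) i)) ∧
      res (pack P len lab j) s.length = s ∧ s.length < m ∧
      (∀ n : ℕ, ∃ i : ℕ, n ≤ i ∧ lab i = b ∧ 0 < len i)

/-- Admissibility of a finite list of codes. -/
def AdmC (s : List Dat) (p : Cod) : Prop := ∀ k : ℕ, k < p.2 → Adm (p.1 k) s

/-- Legitimate nodes. -/
def LegN {C : Type*} (ok : List (C × Bool × ℕ) → C → Prop) : List (C × Bool × ℕ) → Prop
  | [] => True
  | a :: s => ok s a.1 ∧ LegN ok s

/-- Legitimate branches. -/
def LegB (x : ℕ → Dat) : Prop := ∀ i : ℕ, AdmC (res x i) (x i).1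

/-- The valid limit points. -/
def Val (x : ℕ → Dat) (b : Bool) : Prop :=
  LegB x ∧ ∀ n : ℕ, ∃ i : ℕ, n ≤ i ∧ (x i).2.1 = b ∧ 0 < (x i).1.2

/-- The rank of a code. -/
noncomputable def rk : Bas → Ordinal.{0}
  | .pt _ => 0
  | .tail P _ _ _ _ _ => ⨆ q : ℕ × ℕ, Order.succ (rk (P q.1 q.2))

/-- The points of the locally compact space: the natural numbers, and the valid limit points. -/
inductive Pt : Type
  | nat : ℕ → Pt
  | lim : (x : ℕ → Dat) → (b : Bool) → Val x b → Pt

/-- Membership in a basic set. -/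
def memR (B : Bas) : Pt → Prop
  | .nat n => n ∈ Npart B
  | .lim x b _ => Occ B (x, b)

/-- The basic set with a given code. -/
def R (B : Bas) : Set Pt := {p | memR B p}

/-- Membership in the region of a node. -/
def memF (s : List Dat) : Pt → Prop
  | .nat n => n ∈ Dn s
  | .lim x _ _ => res x s.length = s

/-- The region of the node `s`. -/
def F (s : List Dat) : Set Pt := {p | memF s p}

/-- The topology of `Pt`. -/
instance : TopologicalSpace Pt where
  IsOpen W := ∀ (x : ℕ → Dat) (b : Bool) (h : Val x b), Pt.lim x b h ∈ W →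
    ∃ m : ℕ, R (mkTail x b m) ⊆ W
  isOpen_univ := fun _ _ _ _ => ⟨0, Set.subset_univ _⟩
  isOpen_inter := by
    intro V W hV hW x b h hq
    obtain ⟨m, hm⟩ := hV x b h hq.1
    obtain ⟨m', hm'⟩ := hW x b h hq.2
    have key : ∀ i j : ℕ, i ≤ j → R (mkTail x b j) ⊆ R (mkTail x b i) := by
      intro i j hab p hp
      cases p with
      | nat n =>
        obtain ⟨i', k, h1, h2⟩ := hp
        exact ⟨i', k, hab.trans h1, h2⟩
      | lim x' b' h' =>
        rcases hp with h | ⟨i', k, h1, h2⟩
        · exact Or.inl h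
        · exact Or.inr ⟨i', k, hab.trans h1, h2⟩
    exact ⟨max m m', Set.subset_inter ((key _ _ (le_max_left _ _)).trans hm)
      ((key _ _ (le_max_right _ _)).trans hm')⟩
  isOpen_sUnion := by
    intro 𝒲 h x b hx hq
    obtain ⟨W, hW, hqW⟩ := hq
    obtain ⟨m, hm⟩ := h W hW x b hx hqW
    exact ⟨m, hm.trans (Set.subset_sUnion_of_mem hW)⟩

/-! ### Part II: the abstract system -/

/-- An abstract tree-like system of clopen sets in a space `K`. Nodes are lists of data
`(p, label, j)`, last entry first. -/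
structure Sys (K : Type) [TopologicalSpace K] where
  /-- codes of admissible sets -/
  Cd : Type
  /-- the set with a given code -/
  st : Cd → Set K
  /-- admissibility of a code at a node -/
  ok : List (Cd × Bool × ℕ) → Cd → Prop
  /-- the region of a node -/
  F : List (Cd × Bool × ℕ) → Set K
  ok_clopen : ∀ s p, ok s p → IsClopen (st p)
  ok_sub : ∀ s p, ok s p → st p ⊆ F s
  ok_empty : ∀ s, ∃ p, ok s p ∧ st p = ∅
  ok_union : ∀ s p q, ok s p → ok s q → ∃ r, ok s r ∧ st r = st p ∪ st q
  ok_mono : ∀ s a p, ok (a :: s) p → ok s p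
  ok_point : ∀ s, LegN ok s → ∃ p, ok s p ∧ (st p).Nonempty
  F_mono : ∀ s a, F (a :: s) ⊆ F s
  F_disj : ∀ s a, ok s a.1 → Disjoint (F (a :: s)) (st a.1)
  F_pair : ∀ s p l j j', LegN ok s → ok s p → j ≠ j' →
    Disjoint (F ((p, l, j) :: s)) (F ((p, l, j') :: s))
  branch : ∀ x : ℕ → Cd × Bool × ℕ, (∀ i, ok (res x i) (x i).1) →
    (∀ (b : Bool) (n : ℕ), ∃ i, n ≤ i ∧ (x i).2.1 = b ∧ (st (x i).1).Nonempty) →
    ∃ U : Bool → ℕ → Cd,
      (∀ b M k, k < M → ok (res x k) (U b M)) ∧
      (∀ b M, st (U b M) ⊆ F (res x M)) ∧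
      (∀ b M, st (U b M) = {z | (x M).2.1 = b ∧ z ∈ st (x M).1} ∪ st (U b (M + 1))) ∧
      (∀ M, Disjoint (st (U true M)) (st (U false M)))

variable {K : Type} [TopologicalSpace K]

open Classical in
/-- The indicator function of a clopen set, as a continuous function (zero if the set is not clopen). -/
noncomputable def indC (A : Set K) : C(K, ℝ) :=
  if h : IsClopen A then ⟨A.indicator (fun _ => (1 : ℝ)), (continuous_const).indicator (by
    intro z hz; rw [h.frontier_eq] at hz; exact absurd hz (Set.notMem_empty z))⟩ else 0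

/-- Entries: a datum together with a level. -/
abbrev Sys.Ent (S : Sys K) : Type := (S.Cd × Bool × ℕ) × ℝ

/-- The node of a list of entries. -/
def Sys.nd (S : Sys K) (A : List S.Ent) : List (S.Cd × Bool × ℕ) := A.map Prod.fst

/-- The function of a list of entries. -/
noncomputable def Sys.u (S : Sys K) : List S.Ent → C(K, ℝ)
  | [] => 0
  | e :: A => e.2 • indC (S.st e.1.1) + Sys.u S A

/-- Legitimate lists of entries. -/
def Sys.Leg (S : Sys K) (A : List S.Ent) : Prop := LegN S.ok (S.nd A)

/-- Scaling the level of an entry by `1 - σ`. -/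
def Sys.sc (S : Sys K) (σ : ℝ) (e : S.Ent) : S.Ent := (e.1, (1 - σ) * e.2)

/-- A norm on `C(K)` lying between the supremum norm and `R` times the supremum norm. -/
structure IsNrm [CompactSpace K] (N : C(K, ℝ) → ℝ) (R : ℝ) : Prop where
  add : ∀ f g, N (f + g) ≤ N f + N g
  smul : ∀ (a : ℝ) f, N (a • f) = |a| * N f
  lo : ∀ f, ‖f‖ ≤ N f
  hi : ∀ f, N f ≤ R * ‖f‖
  one_le : 1 ≤ R

/-- `EE S N A c` is the supremum of `N (u A + c 1_P)` over the sets `P` admissible at the node of `A`. -/
noncomputable def EE (S : Sys K) (N : C(K, ℝ) → ℝ) (A : List S.Ent) (c : ℝ) : ℝ :=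
  sSup {r : ℝ | ∃ p, S.ok (S.nd A) p ∧ r = N (S.u A + c • indC (S.st p))}

/-- `VG S N A w r`: all perturbations of `w` inside the region of the node of `A` have norm at least `r`. -/
def VG (S : Sys K) (N : C(K, ℝ) → ℝ) (A : List S.Ent) (w : C(K, ℝ)) (r : ℝ) : Prop :=
  ∀ g : C(K, ℝ), (∀ z, z ∉ S.F (S.nd A) → g z = 0) → r ≤ N (w + g)

/-- The growth property `(N; κ, b, ε)` of a state `(A, c)`. -/
def NP (S : Sys K) (N : C(K, ℝ) → ℝ) (A : List S.Ent) (c κ b ε : ℝ) : Prop :=
  ∀ (D : List S.Ent) (c' : ℝ), c ≤ c' → S.Leg (D ++ A) → (∀ e ∈ D, c - b ≤ e.2 ∧ e.2 ≤ c') →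
    EE S N A c + κ * (c' - c) - ε ≤ EE S N (D ++ A) c'

end Pool.Agent.Helper55.SM
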