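import Pool.Agent.Helper55.SM.Basic

set_option autoImplicit false

open Set

namespace Pool.Agent.Helper55.SM

variable {K : Type} [TopologicalSpace K] [CompactSpace K]

/-- The sequence of states produced by the construction. -/
structure SeqData (S : Sys K) (N : C(K, ℝ) → ℝ) (ρ H : ℝ) where
  A : ℕ → List S.Ent
  c : ℕ → ℝ
  Bl : ℕ → List S.Ent
  r : ℕ → S.Ent
  step : ∀ n, A (n + 1) = Bl n ++ r n :: A n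
  leg : ∀ n, S.Leg (A n)
  ne_nil : A 0 ≠ []
  c_one : ∀ n, 1 ≤ c n
  c_le : ∀ n, c n ≤ H
  c_mono : ∀ n, c n ≤ c (n + 1)
  c_inc : ∀ n, c (n + 1) - c n ≤ 6 * ρ ^ (3 * n + 7)
  r_lab : ∀ n, (r n).1.2.1 = false
  r_lev : ∀ n, (r n).2 = (1 - ρ ^ (2 * n + 4)) * c n
  r_ne : ∀ n, (S.st (r n).1.1).Nonempty
  r_vg : ∀ n, VG S N (r n :: A n) (S.u (A n) + (c n + ρ ^ (2 * n + 3)) • indC (S.st (r n).1.1))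
    (EE S N (A n) (c n) + ρ ^ (2 * n + 3) / 2 - 4 * ρ ^ (5 * n + 8))
  bl_lo : ∀ n, ∀ e ∈ Bl n, c n - 2 * H * ρ ^ (2 * n + 4) ≤ e.2
  bl_hi : ∀ n, ∀ e ∈ Bl n, e.2 ≤ c (n + 1)
  bl_false : ∀ n, ∀ e ∈ Bl n, e.1.2.1 = false → e.2 ≤ (1 - ρ ^ (2 * n + 4)) * c (n + 1)
  bl_true : ∀ n, ∃ e ∈ Bl n, e.1.2.1 = true ∧ (S.st e.1.1).Nonempty
  vg : ∀ n, VG S N (A n) (S.u (A n)) (EE S N (A n) (c n) - ρ ^ (5 * n + 8))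

/-- The limit functions of a sequence of states. -/
structure BrData (S : Sys K) (N : C(K, ℝ) → ℝ) (ρ H : ℝ) (D : SeqData S N ρ H) where
  y : C(K, ℝ)
  ξ : ℕ → C(K, ℝ)
  cc : ℝ
  c_le : ∀ n, D.c n ≤ cc
  le_c : ∀ n, cc - D.c n ≤ 12 * ρ ^ (3 * n + 7)
  norm_ξ : ∀ n, ‖ξ n‖ ≤ 1
  y_A : ∀ n, ∀ z, z ∉ S.F (S.nd (D.A n)) → (y - S.u (D.A n)) z = 0
  ξ_A : ∀ n, ∀ z, z ∉ S.F (S.nd (D.A n)) → ξ n z = 0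
  y_r : ∀ n, ∀ z, z ∉ S.F (S.nd (D.r n :: D.A n)) → (y - S.u (D.r n :: D.A n)) z = 0
  ξ_r : ∀ n, ∀ z, z ∉ S.F (S.nd (D.r n :: D.A n)) → (ξ n - indC (S.st (D.r n).1.1)) z = 0
  upper : ∀ n, ∀ t : ℝ, |t| ≤ ρ ^ (2 * n + 4) → N (y + t • (ξ n - ξ (n + 1))) ≤ EE S N (D.A n) cc

end Pool.Agent.Helper55.SM
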